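import Pool.Agent.H9.HamTour.Defs

namespace Pool.Agent.H9.HamTour

/-- the test whether a cycle avoids an arc -/
def tst (m c : ℕ) : Bool := Nat.beq (Nat.land c m) 0

def fil (m : ℕ) : List ℕ → (List ℕ → Bool) → List ℕ → Bool
  | [], k, a => k a
  | c :: cs, k, a => cond (tst m c) (fil m cs k (c :: a)) (fil m cs k a)

/-- the admissible numbers of circuits -/
def good (n : ℕ) : Bool := Nat.ble n 15 || Nat.beq n 17 || Nat.beq n 24

def chk : List (ℕ × ℕ) → List ℕ → Bool
  | [], L => good L.length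
  | v :: vs, L => fil v.1 L (chk vs) [] && fil v.2 L (chk vs) []

theorem fil_eq (m : ℕ) (L : List ℕ) (k : List ℕ → Bool) (a : List ℕ) :
    fil m L k a = k ((L.filter (tst m)).reverse ++ a) := by
  induction L generalizing a with
  | nil => simp [fil]
  | cons c cs ih =>
    rw [fil]
    cases h : tst m c with
    | true => simp [ih, h]
    | false => simp [ih, h]

theorem chk_sound (vs : List (ℕ × ℕ)) (L : List ℕ) (h : chk vs L = true) (w : List ℕ)
    (hw : List.Forall₂ (fun m (v : ℕ × ℕ) => m = v.1 ∨ m = v.2) w vs) :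
    good (L.filter (fun c => w.all (fun m => tst m c))).length = true := by
  induction vs generalizing L w with
  | nil =>
    rw [List.forall₂_nil_right_iff] at hw
    subst hw
    simpa [chk] using h
  | cons v vs ih =>
    rw [List.forall₂_cons_right_iff] at hw
    obtain ⟨m, w', hm, hw', rfl⟩ := hw
    rw [chk, Bool.and_eq_true, fil_eq, fil_eq, List.append_nil, List.append_nil] at h
    have key : chk vs (L.filter (tst m)).reverse = true := by
      rcases hm with rfl | rfl
      · exact h.1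
      · exact h.2
    have h2 := ih _ key w' hw'
    rw [List.filter_reverse, List.length_reverse, List.filter_filter] at h2
    convert h2 using 4
    funext c
    simp [Bool.and_comm]

/-- the bit of the arc `a → b` -/
def bt (a b : ℕ) : ℕ := 2 ^ (7 * a + b)

/-- the mask of a walk -/
def msk : List ℕ → ℕ
  | [] => 0
  | [_] => 0
  | a :: b :: t => Nat.lor (bt a b) (msk (b :: t))

def cyc (t : List ℕ) : ℕ := msk (0 :: (t ++ [0]))

def allM : List ℕ := (List.permutations' [1, 2, 3, 4, 5, 6]).map cyc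

def fixedB : List ℕ :=
  [bt 0 0, bt 1 1, bt 2 2, bt 3 3, bt 4 4, bt 5 5, bt 6 6,
    bt 1 0, bt 2 1, bt 3 2, bt 4 3, bt 5 4, bt 6 5, bt 0 6]

def vars : List (ℕ × ℕ) :=
  [(bt 2 0, bt 0 2), (bt 3 0, bt 0 3), (bt 4 0, bt 0 4), (bt 5 0, bt 0 5),
    (bt 3 1, bt 1 3), (bt 4 1, bt 1 4), (bt 5 1, bt 1 5), (bt 6 1, bt 1 6),
    (bt 4 2, bt 2 4), (bt 5 2, bt 2 5), (bt 6 2, bt 2 6),
    (bt 5 3, bt 3 5), (bt 6 3, bt 3 6), (bt 6 4, bt 4 6)]

def L0 : List ℕ := allM.filter (fun c => fixedB.all (fun m => tst m c))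

end Pool.Agent.H9.HamTour
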