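import Mathlib

/-!
Hamiltonian circuits of tournaments (problem MP_9038fc_co).
-/

namespace Pool.Agent.H9.HamTour

/-- An `n`-tournament on the vertex set `Fin n`: there are no loops, and for distinct `u`, `v`
exactly one of the arcs `u → v`, `v → u` is present. -/
structure Tournament (n : ℕ) where
  /-- `arc u v = true` means that `u → v`. -/
  arc : Fin n → Fin n → Bool
  no_loop : ∀ u, arc u u = false
  exactly_one : ∀ u v, u ≠ v → arc u v = !arc v u

/-- The Hamiltonian circuits `s 0 → s 1 → ⋯ → s (n-1) → s 0`, each written from vertex `0`, that
is with `s 0 = 0` (indices modulo `n`). Every circuit can be written in exactly one way like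
this. -/
def Tournament.circuits {n : ℕ} [NeZero n] (T : Tournament n) : Finset (Fin n → Fin n) :=
  Finset.univ.filter fun s => Function.Injective s ∧ s 0 = 0 ∧ ∀ i, T.arc (s i) (s (i + 1)) = true

/-- The number of Hamiltonian circuits. -/
def Tournament.numHam {n : ℕ} [NeZero n] (T : Tournament n) : ℕ := T.circuits.card

/-- `h_o(n)`: the largest number of Hamiltonian circuits of an `n`-tournament. -/
noncomputable def ho (n : ℕ) [NeZero n] : ℕ := sSup (Set.range (Tournament.numHam (n := n)))

end Pool.Agent.H9.HamTour
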