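import Pool.Agent.H9.HamTour.Check

namespace Pool.Agent.H9.HamTour

def okf (T : Tournament 7) : List (Fin 7) → Bool
  | [] => true
  | [_] => true
  | a :: b :: t => T.arc a b && okf T (b :: t)

theorem testBit_bt (a b : ℕ) (k : ℕ) : (bt a b).testBit k = decide (7 * a + b = k) := by
  rw [bt, Nat.testBit_two_pow]

theorem tst_bt (a b c : ℕ) : tst (bt a b) c = true ↔ c.testBit (7 * a + b) = false := by
  have h : Nat.land c (bt a b) = (c.testBit (7 * a + b)).toNat * 2 ^ (7 * a + b) :=
    Nat.and_two_pow c (7 * a + b)
  rw [tst, h, Nat.beq_eq]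
  cases c.testBit (7 * a + b) <;> simp

theorem okf_iff (T : Tournament 7) (l : List (Fin 7)) :
    okf T l = true ↔ ∀ a b : Fin 7, T.arc a b = false →
      tst (bt a b) (msk (l.map Fin.val)) = true := by
  simp only [tst_bt]
  match l with
  | [] => simp [okf, msk]
  | [x] => simp [okf, msk]
  | x :: y :: t =>
    have ih := okf_iff T (y :: t)
    simp only [tst_bt] at ih
    rw [okf, Bool.and_eq_true, ih]
    simp only [List.map_cons, msk]
    have hor : ∀ k, (Nat.lor (bt x y) (msk ((y : ℕ) :: t.map Fin.val))).testBit k =
        (decide (7 * (x : ℕ) + y = k) || (msk ((y : ℕ) :: t.map Fin.val)).testBit k) := by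
      intro k
      have := Nat.testBit_or (bt x y) (msk ((y : ℕ) :: t.map Fin.val)) k
      rw [testBit_bt] at this
      exact this
    simp only [hor, Bool.or_eq_false_iff, decide_eq_false_iff_not]
    constructor
    · rintro ⟨h1, h2⟩ a b hab
      refine ⟨fun h => ?_, h2 a b hab⟩
      have hy := y.2
      have hb := b.2
      have e1 : x = a := Fin.ext (by omega)
      have e2 : y = b := Fin.ext (by omega)
      subst e1 e2
      rw [h1] at hab
      exact absurd hab (by decide)
    · intro h
      refine ⟨?_, fun a b hab => (h a b hab).2⟩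
      by_contra hxy
      rw [Bool.not_eq_true] at hxy
      exact (h x y hxy).1 rfl

def PF : List (List (Fin 7)) := List.permutations' [1, 2, 3, 4, 5, 6]

theorem PF_nodup : PF.Nodup :=
  (List.permutations_perm_permutations' _).nodup_iff.1 (List.nodup_permutations _ (by decide))

theorem mem_PF (t : List (Fin 7)) : t ∈ PF ↔ t.Nodup ∧ ∀ a, a ∈ t ↔ a ≠ 0 := by
  rw [PF, List.mem_permutations']
  constructor
  · intro h
    refine ⟨h.nodup_iff.2 (by decide), fun a => ?_⟩
    rw [h.mem_iff]
    revert a
    decide
  · rintro ⟨h1, h2⟩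
    refine (List.perm_ext_iff_of_nodup h1 (by decide)).2 fun a => ?_
    rw [h2]
    revert a
    decide

theorem numHam_eq (T : Tournament 7) :
    T.numHam = (PF.filter (fun t => okf T (0 :: (t ++ [0])))).length := by
  rw [← List.toFinset_card_of_nodup (PF_nodup.filter _), Tournament.numHam]
  refine Finset.card_bij (fun s _ => [s 1, s 2, s 3, s 4, s 5, s 6]) ?_ ?_ ?_
  · intro s hs
    rw [Tournament.circuits, Finset.mem_filter] at hs
    obtain ⟨-, hinj, h0, harc⟩ := hs
    rw [List.mem_toFinset, List.mem_filter, mem_PF]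
    have hofn : List.ofFn s = [s 0, s 1, s 2, s 3, s 4, s 5, s 6] := by
      simp [List.ofFn_succ]
    have hnd : [s 0, s 1, s 2, s 3, s 4, s 5, s 6].Nodup := by
      rw [← hofn]
      exact List.nodup_ofFn.2 hinj
    refine ⟨⟨(List.nodup_cons.1 hnd).2, fun a => ?_⟩, ?_⟩
    · constructor
      · rintro ha rfl
        rw [← h0] at ha
        exact (List.nodup_cons.1 hnd).1 ha
      · intro ha
        obtain ⟨i, rfl⟩ := (Finite.injective_iff_surjective.1 hinj) a
        have hi : i ≠ 0 := fun h => ha (by rw [h, h0])
        fin_cases i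
        · exact absurd rfl hi
        all_goals simp
    · have h6 := harc 6
      have e : (6 : Fin 7) + 1 = 0 := rfl
      rw [e, h0] at h6
      have h00 := harc 0
      rw [h0] at h00
      simp only [List.cons_append, List.nil_append, okf, Bool.and_eq_true]
      exact ⟨h00, harc 1, harc 2, harc 3, harc 4, harc 5, h6, trivial⟩
  · intro s hs s' hs' h
    rw [Tournament.circuits, Finset.mem_filter] at hs hs'
    simp only [List.cons.injEq, and_true] at h
    funext i
    fin_cases i
    · exact hs.2.2.1.trans hs'.2.2.1.symm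
    · exact h.1
    · exact h.2.1
    · exact h.2.2.1
    · exact h.2.2.2.1
    · exact h.2.2.2.2.1
    · exact h.2.2.2.2.2
  · intro t ht
    rw [List.mem_toFinset, List.mem_filter] at ht
    obtain ⟨ht, hok⟩ := ht
    have hlen : t.length = 6 := by
      rw [PF, List.mem_permutations'] at ht
      exact ht.length_eq
    rw [mem_PF] at ht
    match t, hlen with
    | [a, b, c, d, e, f], _ =>
      refine ⟨![0, a, b, c, d, e, f], ?_, rfl⟩
      rw [Tournament.circuits, Finset.mem_filter]
      refine ⟨Finset.mem_univ _, ?_, rfl, ?_⟩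
      · rw [← List.nodup_ofFn]
        have hofn : List.ofFn ![0, a, b, c, d, e, f] = [0, a, b, c, d, e, f] := by
          simp [List.ofFn_succ]
        rw [hofn]
        refine List.nodup_cons.2 ⟨fun h => ?_, ht.1⟩
        exact (ht.2 0).1 h rfl
      · simp only [List.cons_append, List.nil_append, okf, Bool.and_eq_true] at hok
        intro i
        fin_cases i
        · exact hok.1
        · exact hok.2.1
        · exact hok.2.2.1
        · exact hok.2.2.2.1
        · exact hok.2.2.2.2.1
        · exact hok.2.2.2.2.2.1
        · exact hok.2.2.2.2.2.2.1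

end Pool.Agent.H9.HamTour
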