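import Pool.Agent.H9.HamTour.Enum
import Pool.Agent.H9.HamTour.Run

namespace Pool.Agent.H9.HamTour

def prs : List (Fin 7 × Fin 7) :=
  [(0, 2), (0, 3), (0, 4), (0, 5), (1, 3), (1, 4), (1, 5), (1, 6), (2, 4), (2, 5), (2, 6),
    (3, 5), (3, 6), (4, 6)]

theorem vars_prs : vars = prs.map (fun p => (bt p.2 p.1, bt p.1 p.2)) := by decide +kernel

def wl (T : Tournament 7) : List ℕ :=
  prs.map (fun p => if T.arc p.1 p.2 = true then bt p.2 p.1 else bt p.1 p.2)

theorem wl_forall (T : Tournament 7) :
    List.Forall₂ (fun m (v : ℕ × ℕ) => m = v.1 ∨ m = v.2) (wl T) vars := by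
  rw [vars_prs, wl, List.forall₂_map_left_iff, List.forall₂_map_right_iff, List.forall₂_same]
  intro p _
  split_ifs
  · left; rfl
  · right; rfl

theorem dec1 : ∀ m ∈ fixedB, ∃ a : Fin 7, m = bt a a ∨ m = bt ((a + 1 : Fin 7) : ℕ) a := by
  decide +kernel

theorem dec2 : ∀ a b : Fin 7, a = b ∨ b = a + 1 ∨ a = b + 1 ∨ (a, b) ∈ prs ∨ (b, a) ∈ prs := by
  decide +kernel

theorem dec3 : ∀ a : Fin 7, bt a a ∈ fixedB ∧ bt ((a + 1 : Fin 7) : ℕ) a ∈ fixedB := by
  decide +kernel

theorem dec4 : ∀ p ∈ prs, p.1 ≠ p.2 := by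
  decide +kernel

theorem link (T : Tournament 7) (hcyc : ∀ i, T.arc i (i + 1) = true) (c : ℕ) :
    (∀ a b : Fin 7, T.arc a b = false → tst (bt a b) c = true) ↔
      ((fixedB.all (fun m => tst m c)) = true ∧ ((wl T).all (fun m => tst m c)) = true) := by
  have hrev : ∀ a : Fin 7, T.arc (a + 1) a = false := by
    intro a
    rw [T.exactly_one (a + 1) a (by revert a; decide), hcyc]
    rfl
  constructor
  · intro h
    refine ⟨List.all_eq_true.2 fun m hm => ?_, List.all_eq_true.2 fun m hm => ?_⟩
    · obtain ⟨a, rfl | rfl⟩ := dec1 m hm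
      · exact h a a (T.no_loop a)
      · exact h (a + 1) a (hrev a)
    · rw [wl, List.mem_map] at hm
      obtain ⟨p, hp, rfl⟩ := hm
      split_ifs with hT
      · refine h p.2 p.1 ?_
        rw [T.exactly_one p.2 p.1 (dec4 p hp).symm, hT]
        rfl
      · exact h p.1 p.2 (by simpa using hT)
  · rintro ⟨h1, h2⟩ a b hab
    rw [List.all_eq_true] at h1 h2
    rcases dec2 a b with h | h | h | h | h
    · subst h
      exact h1 _ (dec3 a).1
    · subst h
      rw [hcyc] at hab
      exact absurd hab (by decide)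
    · subst h
      exact h1 _ (dec3 b).2
    · refine h2 _ (List.mem_map.2 ⟨(a, b), h, ?_⟩)
      simp [hab]
    · refine h2 _ (List.mem_map.2 ⟨(b, a), h, ?_⟩)
      have : T.arc b a = true := by
        rw [T.exactly_one b a (dec4 _ h), hab]
        rfl
      simp [this]

theorem good_of_cyc (T : Tournament 7) (hcyc : ∀ i, T.arc i (i + 1) = true) :
    good T.numHam = true := by
  have h := chk_sound vars L0 chk_main (wl T) (wl_forall T)
  have hall : allM = PF.map (fun t => cyc (t.map Fin.val)) := by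
    have : ([1, 2, 3, 4, 5, 6] : List ℕ) = List.map Fin.val ([1, 2, 3, 4, 5, 6] : List (Fin 7)) :=
      rfl
    rw [allM, PF, this, ← List.map_permutations', List.map_map]
    rfl
  have hnum : T.numHam = (L0.filter (fun c => (wl T).all (fun m => tst m c))).length := by
    rw [numHam_eq, L0, List.filter_filter, hall, List.filter_map, List.length_map]
    congr 1
    refine List.filter_congr fun t _ => ?_
    rw [Bool.eq_iff_iff, okf_iff, link T hcyc]
    simp only [Function.comp_apply, Bool.and_eq_true, cyc, List.map_cons, List.map_append,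
      List.map_nil, Fin.val_zero]
    exact and_comm
  rw [hnum]
  exact h

def Tournament.relabel (T : Tournament 7) (s : Fin 7 → Fin 7) (hs : Function.Injective s) :
    Tournament 7 where
  arc i j := T.arc (s i) (s j)
  no_loop u := T.no_loop _
  exactly_one u v h := T.exactly_one _ _ (hs.ne h)

theorem relabel_numHam (T : Tournament 7) (s : Fin 7 → Fin 7) (hs : Function.Injective s)
    (h0 : s 0 = 0) : (T.relabel s hs).numHam = T.numHam := by
  rw [Tournament.numHam, Tournament.numHam]
  refine Finset.card_bij (fun r _ => s ∘ r) ?_ ?_ ?_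
  · intro r hr
    rw [Tournament.circuits, Finset.mem_filter] at hr ⊢
    refine ⟨Finset.mem_univ _, hs.comp hr.2.1, ?_, fun i => hr.2.2.2 i⟩
    rw [Function.comp_apply, hr.2.2.1, h0]
  · intro r _ r' _ h
    exact hs.comp_left h
  · intro r hr
    rw [Tournament.circuits, Finset.mem_filter] at hr
    let e : Fin 7 ≃ Fin 7 := Equiv.ofBijective s (Finite.injective_iff_bijective.1 hs)
    have he : ∀ x, s (e.symm x) = x := fun x => e.apply_symm_apply x
    refine ⟨fun i => e.symm (r i), ?_, ?_⟩
    · rw [Tournament.circuits, Finset.mem_filter]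
      refine ⟨Finset.mem_univ _, e.symm.injective.comp hr.2.1, ?_, fun i => ?_⟩
      · change e.symm (r 0) = 0
        rw [hr.2.2.1, Equiv.symm_apply_eq]
        exact h0.symm
      · change T.arc (s (e.symm (r i))) (s (e.symm (r (i + 1)))) = true
        rw [he, he]
        exact hr.2.2.2 i
    · funext i
      exact he _

theorem good_all (T : Tournament 7) : good T.numHam = true := by
  rcases Finset.eq_empty_or_nonempty T.circuits with h | ⟨s, hs⟩
  · rw [Tournament.numHam, h]
    rfl
  · have hs' := hs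
    rw [Tournament.circuits, Finset.mem_filter] at hs'
    rw [← relabel_numHam T s hs'.2.1 hs'.2.2.1]
    exact good_of_cyc _ fun i => hs'.2.2.2 i

theorem numHam_mem (T : Tournament 7) : T.numHam ≤ 15 ∨ T.numHam = 17 ∨ T.numHam = 24 := by
  have h := good_all T
  rw [good, Bool.or_eq_true, Bool.or_eq_true, Nat.ble_eq, Nat.beq_eq, Nat.beq_eq] at h
  omega

def paley : Tournament 7 where
  arc i j := decide (j - i = 1 ∨ j - i = 2 ∨ j - i = 4)
  no_loop := by decide
  exactly_one := by decide

theorem paley_numHam : paley.numHam = 24 := by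
  rw [numHam_eq]
  decide +kernel

theorem ho_seven : ho 7 = 24 := by
  have hb : BddAbove (Set.range (Tournament.numHam (n := 7))) := by
    refine ⟨24, ?_⟩
    rintro _ ⟨T, rfl⟩
    have := numHam_mem T
    omega
  refine le_antisymm ?_ ?_
  · refine csSup_le ⟨_, paley, rfl⟩ ?_
    rintro _ ⟨T, rfl⟩
    have := numHam_mem T
    omega
  · rw [← paley_numHam]
    exact le_csSup hb ⟨paley, rfl⟩

theorem main : (¬ ∀ (n : ℕ) [NeZero n] (h : ℕ), h ≤ ho n → ∃ T : Tournament n, T.numHam = h) ∧
    ho 7 = 24 ∧ ∀ T : Tournament 7, T.numHam ≤ 15 ∨ T.numHam = 17 ∨ T.numHam = 24 := by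
  refine ⟨fun h => ?_, ho_seven, numHam_mem⟩
  obtain ⟨T, hT⟩ := h 7 16 (by rw [ho_seven]; decide)
  have := numHam_mem T
  omega

end Pool.Agent.H9.HamTour
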